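import Pool.Agent.H578.E8.Rs

set_option autoImplicit false

/-!
# A supercongruence for the sums `∑ k Q_k C(2k,k)² / (-8)^k` (companion Pell numbers)

For every prime `p ≡ 1, 3` modulo `8`, written as `p = x² + 2y²` with `x ≡ 1` or `3` modulo `8`,
`∑_{k<p} k Q_k C(2k,k)² / (-8)^k` is `0` modulo `p²` if `p ≡ 1` modulo `8`, and
`(-1)^((p-3)/8) · 2 (x + p/x)` modulo `p²` if `p ≡ 3` modulo `8` (Q2).
-/

namespace Pool.Agent.Results.MP_a989c0_nt.QTwo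

open Finset

/-- the companion Pell sequence `Q_0 = Q_1 = 2`, `Q_{n+2} = 2 Q_{n+1} + Q_n` -/
def Q : ℕ → ℤ
  | 0 => 2
  | 1 => 2
  | n + 2 => 2 * Q (n + 1) + Q n

/-- the sum `S_1(p)` of the problem -/
def S1 (p : ℕ) : ℚ := ∑ k ∈ range p, (k : ℚ) * (Q k : ℚ) / (-8) ^ k * ((2 * k).choose k : ℚ) ^ 2

/-- `u ≡ v` modulo `p^m`, i.e. `u - v` is `p^m` times a rational number whose denominator is prime to `p` -/
def Cong (p m : ℕ) (u v : ℚ) : Prop := ∃ (n : ℤ) (d : ℕ), ¬ p ∣ d ∧ u - v = (p : ℚ) ^ m * (n / d)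

theorem Q_eq (n : ℕ) : Q n = Pool.Agent.Q267.E8.Qn n ∧ Q (n + 1) = Pool.Agent.Q267.E8.Qn (n + 1) := by
  induction n with
  | zero => exact ⟨rfl, rfl⟩
  | succ n ih =>
    refine ⟨ih.2, ?_⟩
    rw [Q, Pool.Agent.Q267.E8.Qn, ih.1, ih.2]

theorem S1_eq (p : ℕ) : S1 p = Pool.Agent.H578.E8.S1 p := by
  unfold S1 Pool.Agent.H578.E8.S1
  refine sum_congr rfl fun k _ => ?_
  rw [(Q_eq k).1]

/-- the statement for `x ≡ 1` modulo `4` -/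
theorem aux (p : ℕ) (hp : p.Prime) (h8 : p % 8 = 3) (x y : ℤ) (hxy : (p : ℤ) = x ^ 2 + 2 * y ^ 2)
    (hx : x % 4 = 1) : Cong p 2 (S1 p) (2 * ((x : ℚ) + (p : ℚ) / (x : ℚ))) := by
  have : Fact p.Prime := ⟨hp⟩
  rcases Nat.lt_or_ge 3 p with h3 | h3
  · rw [S1_eq]
    exact Pool.Agent.H578.E8.s1_case3 p h8 h3 x y hxy (by omega)
  · have hx2 : x ^ 2 ≤ 3 := by nlinarith [sq_nonneg y, (by exact_mod_cast h3 : (p : ℤ) ≤ 3)]
    have hx1 : x = 1 := by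
      have : x ≤ 1 := by nlinarith
      have : -2 < x := by nlinarith
      omega
    subst hx1
    have hp3 : p = 3 := by omega
    subst hp3
    refine ⟨-1, 4, by norm_num, ?_⟩
    rw [S1, sum_range_succ, sum_range_succ, sum_range_succ, sum_range_zero]
    have h0 : Q 0 = 2 := rfl
    have h1 : Q 1 = 2 := rfl
    have h2 : Q 2 = 6 := rfl
    have c0 : (2 * 0).choose 0 = 1 := rfl
    have c1 : (2 * 1).choose 1 = 2 := rfl
    have c2 : (2 * 2).choose 2 = 6 := rfl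
    rw [h0, h1, h2, c0, c1, c2]
    norm_num

/-- `x` modulo `8` and `p` modulo `16` -/
theorem mod16 (p : ℕ) (h8 : p % 8 = 3) (x y : ℤ) (hxy : (p : ℤ) = x ^ 2 + 2 * y ^ 2)
    (hx : x % 8 = 1 ∨ x % 8 = 3) : (x % 8 = 1 ∧ p % 16 = 3) ∨ (x % 8 = 3 ∧ p % 16 = 11) := by
  have hy : y % 2 = 1 := by
    by_contra h
    obtain ⟨z, hz⟩ : ∃ z, y = 2 * z := ⟨y / 2, by omega⟩
    rcases hx with h1 | h1
    · obtain ⟨w, hw⟩ : ∃ w, x = 8 * w + 1 := ⟨x / 8, by omega⟩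
      rw [hz, hw] at hxy
      have : (p : ℤ) = 8 * (8 * w ^ 2 + 2 * w + z ^ 2) + 1 := by rw [hxy]; ring
      omega
    · obtain ⟨w, hw⟩ : ∃ w, x = 8 * w + 3 := ⟨x / 8, by omega⟩
      rw [hz, hw] at hxy
      have : (p : ℤ) = 8 * (8 * w ^ 2 + 6 * w + z ^ 2 + 1) + 1 := by rw [hxy]; ring
      omega
  obtain ⟨z, hz⟩ : ∃ z, y = 2 * z + 1 := ⟨y / 2, by omega⟩
  have hzz : (z ^ 2 + z) % 2 = 0 := by
    rcases Int.emod_two_eq_zero_or_one z with h | h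
    · obtain ⟨t, ht⟩ : ∃ t, z = 2 * t := ⟨z / 2, by omega⟩
      rw [ht, show (2 * t) ^ 2 + 2 * t = 2 * (2 * t ^ 2 + t) by ring]
      omega
    · obtain ⟨t, ht⟩ : ∃ t, z = 2 * t + 1 := ⟨z / 2, by omega⟩
      rw [ht, show (2 * t + 1) ^ 2 + (2 * t + 1) = 2 * (2 * t ^ 2 + 3 * t + 1) by ring]
      omega
  rcases hx with h1 | h1
  · left
    refine ⟨h1, ?_⟩
    obtain ⟨w, hw⟩ : ∃ w, x = 8 * w + 1 := ⟨x / 8, by omega⟩
    have : (p : ℤ) = 16 * (4 * w ^ 2 + w) + 8 * (z ^ 2 + z) + 3 := by rw [hxy, hz, hw]; ring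
    omega
  · right
    refine ⟨h1, ?_⟩
    obtain ⟨w, hw⟩ : ∃ w, x = 8 * w + 3 := ⟨x / 8, by omega⟩
    have : (p : ℤ) = 16 * (4 * w ^ 2 + 3 * w) + 8 * (z ^ 2 + z) + 11 := by rw [hxy, hz, hw]; ring
    omega

/-- **The supercongruence of Q2 holds for every prime `p ≡ 1, 3` modulo `8`.** -/
theorem result (p : ℕ) (hp : p.Prime) (h8 : p % 8 = 1 ∨ p % 8 = 3) :
    (∃ x y : ℤ, (p : ℤ) = x ^ 2 + 2 * y ^ 2 ∧ (x % 8 = 1 ∨ x % 8 = 3)) ∧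
    ∀ x y : ℤ, (p : ℤ) = x ^ 2 + 2 * y ^ 2 → (x % 8 = 1 ∨ x % 8 = 3) →
      (p % 8 = 1 → Cong p 2 (S1 p) 0) ∧
      (p % 8 = 3 → Cong p 2 (S1 p) ((-1 : ℚ) ^ ((p - 3) / 8) * (2 * ((x : ℚ) + (p : ℚ) / (x : ℚ))))) := by
  have : Fact p.Prime := ⟨hp⟩
  refine ⟨?_, fun x y hxy hx => ⟨fun h1 => ?_, fun h3 => ?_⟩⟩
  · obtain ⟨x, y, hxy, hx⟩ := Pool.Agent.Q121.E8.rp p h8
    rcases (show x % 8 = 1 ∨ x % 8 = 5 by omega) with h | h
    · exact ⟨x, y, hxy, Or.inl h⟩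
    · exact ⟨-x, y, by rw [hxy]; ring, Or.inr (by omega)⟩
  · rw [S1_eq]
    exact Pool.Agent.H578.E8.s1_case1 p h1
  · rcases mod16 p h3 x y hxy hx with ⟨hx1, hp1⟩ | ⟨hx1, hp1⟩
    · have hev : Even ((p - 3) / 8) := by
        rw [Nat.even_iff]
        omega
      rw [hev.neg_one_pow, one_mul]
      exact aux p hp h3 x y hxy (by omega)
    · have hodd : Odd ((p - 3) / 8) := by
        rw [Nat.odd_iff]
        omega
      rw [hodd.neg_one_pow]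
      have := aux p hp h3 (-x) y (by rw [hxy]; ring) (by omega)
      have e : (-1 : ℚ) * (2 * ((x : ℚ) + (p : ℚ) / (x : ℚ))) =
          2 * (((-x : ℤ) : ℚ) + (p : ℚ) / ((-x : ℤ) : ℚ)) := by
        push_cast
        rw [div_neg]
        ring
      rw [e]
      exact this

end Pool.Agent.Results.MP_a989c0_nt.QTwo
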